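import Mathlib
import Pool.Agent.Lib_helper43.LA.Defs2

/-!
Block NR of MP_859019_mp.LargeAlpha (all states): if `C χ = χ ≠ 0` and `ρ`, `C` have no common
eigenvector `f` with `C f = f`, then `Tr M^(p-1) N ≥ ε 2^p / p^2` for all large `p`.
-/

set_option autoImplicit false
set_option linter.unusedSectionVars false

open scoped Kronecker ComplexOrder

namespace Pool.Agent.Lib_helper80.LA

open Matrix Pool.Agent.Lib_helper98.Renyi Pool.Agent.Lib_helper43.LA Filter Topology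

variable {n : Type} [Fintype n] [DecidableEq n]

/-- quadratic form -/
noncomputable def qf (M : Matrix n n ℂ) (v : n → ℂ) : ℝ := (star v ⬝ᵥ (M *ᵥ v)).re

/-- squared norm -/
noncomputable def nsq (v : n → ℂ) : ℝ := ∑ i, Complex.normSq (v i)

theorem nsq_nonneg (v : n → ℂ) : 0 ≤ nsq v := Finset.sum_nonneg fun _ _ => Complex.normSq_nonneg _

theorem normSq_le_nsq (v : n → ℂ) (i : n) : Complex.normSq (v i) ≤ nsq v :=
  Finset.single_le_sum (f := fun i => Complex.normSq (v i)) (fun _ _ => Complex.normSq_nonneg _)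
    (Finset.mem_univ i)

theorem star_dot (v : n → ℂ) : star v ⬝ᵥ v = (nsq v : ℂ) := by
  rw [dotProduct, nsq]
  push_cast
  refine Finset.sum_congr rfl fun i _ => ?_
  rw [Pi.star_apply, Complex.normSq_eq_conj_mul_self]
  rfl

theorem qf_diag (c : n → ℝ) (v : n → ℂ) :
    qf (diagonal (fun i => (c i : ℂ))) v = ∑ i, c i * Complex.normSq (v i) := by
  rw [qf, dotProduct, Complex.re_sum]
  refine Finset.sum_congr rfl fun i _ => ?_
  rw [mulVec_diagonal, Pi.star_apply]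
  have : star (v i) * ((c i : ℂ) * v i) = ((c i * Complex.normSq (v i) : ℝ) : ℂ) := by
    push_cast
    rw [Complex.normSq_eq_conj_mul_self]
    have : star (v i) = (starRingEnd ℂ) (v i) := rfl
    rw [this]
    ring
  rw [this, Complex.ofReal_re]

theorem qf_conj (U X : Matrix n n ℂ) (v : n → ℂ) : qf (U * X * Uᴴ) v = qf X (Uᴴ *ᵥ v) := by
  rw [qf, qf, ← mulVec_mulVec, ← mulVec_mulVec, star_mulVec, conjTranspose_conjTranspose,
    ← dotProduct_mulVec]

theorem qf_add (X Y : Matrix n n ℂ) (v : n → ℂ) : qf (X + Y) v = qf X v + qf Y v := by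
  rw [qf, qf, qf, add_mulVec, dotProduct_add, Complex.add_re]

theorem qf_sub (X Y : Matrix n n ℂ) (v : n → ℂ) : qf (X - Y) v = qf X v - qf Y v := by
  rw [qf, qf, qf, sub_mulVec, dotProduct_sub, Complex.sub_re]

theorem qf_smul (t : ℝ) (X : Matrix n n ℂ) (v : n → ℂ) : qf ((t : ℂ) • X) v = t * qf X v := by
  rw [qf, qf, smul_mulVec, dotProduct_smul, smul_eq_mul, Complex.re_ofReal_mul]

theorem qf_one (v : n → ℂ) : qf 1 v = nsq v := by
  rw [qf, one_mulVec, star_dot, Complex.ofReal_re]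

theorem qf_nonneg {X : Matrix n n ℂ} (hX : X.PosSemidef) (v : n → ℂ) : 0 ≤ qf X v :=
  (Complex.le_def.1 (hX.dotProduct_mulVec_nonneg v)).1

theorem nsq_conj {U : Matrix n n ℂ} (hU : U * Uᴴ = 1) (v : n → ℂ) :
    nsq (Uᴴ *ᵥ v) = nsq v := by
  have h := qf_conj U 1 v
  rw [Matrix.mul_one, hU, qf_one, qf_one] at h
  exact h.symm

theorem conj_diag_mulVec {U : Matrix n n ℂ} (hU : Uᴴ * U = 1) (c : n → ℝ) (v : n → ℂ) (i : n) :
    (Uᴴ *ᵥ ((U * diagonal (fun i => (c i : ℂ)) * Uᴴ) *ᵥ v)) i = (c i : ℂ) * (Uᴴ *ᵥ v) i := by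
  rw [mulVec_mulVec]
  have : Uᴴ * (U * diagonal (fun i => (c i : ℂ)) * Uᴴ) = diagonal (fun i => (c i : ℂ)) * Uᴴ := by
    rw [← Matrix.mul_assoc, ← Matrix.mul_assoc, hU, Matrix.one_mul]
  rw [this, ← mulVec_mulVec, mulVec_diagonal]

theorem exists_top {M : Matrix n n ℂ} (hM : M.PosSemidef) [Nonempty n] :
    ∃ (f : n → ℂ) (μ : ℝ), 0 ≤ μ ∧ nsq f = 1 ∧ M *ᵥ f = (μ : ℂ) • f ∧
      (∀ v, qf M v ≤ μ * nsq v) ∧
      ∀ (N : Matrix n n ℂ), N.PosSemidef → ∀ s : ℝ, 0 < s →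
        μ ^ s * qf N f ≤ (trace (mpow M s * N)).re := by
  obtain ⟨U, c, hU, hU', hc, rfl⟩ := exists_spectral_nonneg hM
  obtain ⟨i, -, hi⟩ := Finset.exists_max_image Finset.univ c Finset.univ_nonempty
  have e0 : Uᴴ *ᵥ (U *ᵥ Pi.single i 1) = Pi.single i (1 : ℂ) := by
    rw [mulVec_mulVec, hU, one_mulVec]
  refine ⟨U *ᵥ Pi.single i 1, c i, hc i, ?_, ?_, ?_, ?_⟩
  · rw [← nsq_conj hU', e0, nsq, Finset.sum_eq_single i]
    · simp
    · intro j _ hj
      simp [hj]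
    · simp
  · rw [← mulVec_mulVec, e0, ← mulVec_mulVec, diagonal_mulVec_single]
    have : (Pi.single i ((c i : ℂ) * 1) : n → ℂ) = (c i : ℂ) • Pi.single i (1 : ℂ) := by
      rw [← Pi.single_smul, smul_eq_mul]
    rw [this, mulVec_smul]
  · intro v
    rw [qf_conj, qf_diag, ← nsq_conj hU' v, nsq, Finset.mul_sum]
    exact Finset.sum_le_sum fun j _ =>
      mul_le_mul_of_nonneg_right (hi j (Finset.mem_univ j)) (Complex.normSq_nonneg _)
  · intro N hN s hs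
    rw [mpow_conj_diagonal _ U hU]
    have t1 : trace (U * diagonal (fun i => (supPow s (c i) : ℂ)) * Uᴴ * N) =
        ∑ j, (supPow s (c j) : ℂ) * (Uᴴ * N * U) j j := by
      rw [Matrix.mul_assoc, Matrix.mul_assoc, trace_mul_comm, Matrix.mul_assoc, trace]
      refine Finset.sum_congr rfl fun j _ => ?_
      rw [diag_apply, diagonal_mul]
    rw [t1, Complex.re_sum]
    have t2 : ∀ j, ((supPow s (c j) : ℂ) * (Uᴴ * N * U) j j).re =
        supPow s (c j) * qf N (U *ᵥ Pi.single j 1) := by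
      intro j
      rw [entry_eq, Complex.re_ofReal_mul, qf]
    rw [Finset.sum_congr rfl fun j _ => t2 j, ← supPow_of_pos_exp hs.ne']
    exact Finset.single_le_sum (f := fun j => supPow s (c j) * qf N (U *ᵥ Pi.single j 1))
      (fun j _ => mul_nonneg (supPow_nonneg (hc j)) (qf_nonneg hN _)) (Finset.mem_univ i)

/-- `N² ≤ L N` in quadratic form. -/
theorem nsq_mulVec_le {N : Matrix n n ℂ} (hN : N.PosSemidef) {L : ℝ}
    (hL : ∀ v, qf N v ≤ L * nsq v) (f : n → ℂ) : nsq (N *ᵥ f) ≤ L * qf N f := by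
  obtain ⟨U, c, hU, hU', hc, rfl⟩ := exists_spectral_nonneg hN
  have hcL : ∀ i, c i ≤ L := by
    intro i
    have h := hL (U *ᵥ Pi.single i 1)
    have e0 : Uᴴ *ᵥ (U *ᵥ Pi.single i 1) = Pi.single i (1 : ℂ) := by
      rw [mulVec_mulVec, hU, one_mulVec]
    rw [← nsq_conj hU', qf_conj, e0, qf_diag, nsq, Finset.sum_eq_single i,
      Finset.sum_eq_single i] at h
    · simpa using h
    · intro j _ hj
      simp [hj]
    · simp
    · intro j _ hj
      simp [hj]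
    · simp
  rw [← nsq_conj hU', qf_conj, qf_diag, nsq, Finset.mul_sum]
  refine Finset.sum_le_sum fun i _ => ?_
  rw [conj_diag_mulVec hU, Complex.normSq_mul, Complex.normSq_ofReal]
  have h1 := Complex.normSq_nonneg ((Uᴴ *ᵥ f) i)
  have h2 : c i * c i ≤ L * c i := mul_le_mul_of_nonneg_right (hcL i) (hc i)
  nlinarith

section onep

variable {ρ C : Matrix n n ℂ}

theorem AA_eq (hρ : ρ.PosSemidef) {p : ℝ} (hp : 0 < p) :
    AA p ρ = mpow ρ (1 / (2 * p)) * mpow ρ 0 * mpow ρ (1 / (2 * p)) := by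
  rw [AA, ← mpow_add hρ, ← mpow_add hρ]
  congr 1
  field_simp
  ring

theorem M_eq (h : Pr ρ C) {p : ℝ} (hp : 0 < p) :
    AA p ρ + DD p ρ C = mpow ρ (1 / (2 * p)) * (mpow ρ 0 + C) * mpow ρ (1 / (2 * p)) := by
  rw [AA_eq h.psd hp, DD, ← Matrix.add_mul, ← Matrix.mul_add]

theorem N_eq (h : Pr ρ C) {p : ℝ} (hp : 0 < p) :
    AA p ρ - DD p ρ C = mpow ρ (1 / (2 * p)) * (mpow ρ 0 - C) * mpow ρ (1 / (2 * p)) := by
  rw [AA_eq h.psd hp, DD, ← Matrix.sub_mul, ← Matrix.mul_sub]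

theorem M_psd (h : Pr ρ C) {p : ℝ} (hp : 0 < p) : (AA p ρ + DD p ρ C).PosSemidef := by
  rw [M_eq h hp]
  have := psd_conj h.add (mpow ρ (1 / (2 * p)))
  rwa [(mpow_posSemidef h.psd _).1.eq] at this

theorem N_psd (h : Pr ρ C) {p : ℝ} (hp : 0 < p) : (AA p ρ - DD p ρ C).PosSemidef := by
  rw [N_eq h hp]
  have := psd_conj h.sub (mpow ρ (1 / (2 * p)))
  rwa [(mpow_posSemidef h.psd _).1.eq] at this

theorem Pi_Pi (h : Pr ρ C) : mpow ρ 0 * mpow ρ 0 = mpow ρ 0 := by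
  rw [← mpow_add h.psd, add_zero]

theorem PXP (h : Pr ρ C) : mpow ρ 0 * (mpow ρ 0 + C) * mpow ρ 0 = mpow ρ 0 + C := by
  rw [Matrix.mul_add, Matrix.add_mul, Pi_Pi h, Pi_Pi h, h.left, h.right]

theorem Pi_chi (h : Pr ρ C) {χ : n → ℂ} (hχ : C *ᵥ χ = χ) : mpow ρ 0 *ᵥ χ = χ := by
  conv_lhs => rw [← hχ]
  rw [mulVec_mulVec, h.left, hχ]

theorem mu_low (h : Pr ρ C) {χ : n → ℂ} (hχ0 : χ ≠ 0) (hχ : C *ᵥ χ = χ) {r : ℝ} (hr : 0 < r)
    (hr' : ∀ s : ℝ, 0 < s →
      (((r ^ (-s) : ℝ) : ℂ) • (1 : Matrix n n ℂ) - mpow ρ (-s)).PosSemidef)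
    {p : ℝ} (hp : 0 < p) {μ : ℝ} (hμ0 : 0 ≤ μ)
    (hμ : ∀ v, qf (AA p ρ + DD p ρ C) v ≤ μ * nsq v) : 2 * r ^ (1 / p) ≤ μ := by
  set B := mpow ρ (-(1 / (2 * p))) with hB
  have hBh : Bᴴ = B := (mpow_posSemidef h.psd _).1.eq
  have b1 : B * mpow ρ (1 / (2 * p)) = mpow ρ 0 := by
    rw [hB, ← mpow_add h.psd]; congr 1; ring
  have b2 : mpow ρ (1 / (2 * p)) * B = mpow ρ 0 := by
    rw [hB, ← mpow_add h.psd]; congr 1; ring
  have b3 : B * (AA p ρ + DD p ρ C) * Bᴴ = mpow ρ 0 + C := by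
    rw [hBh, M_eq h hp]
    calc B * (mpow ρ (1 / (2 * p)) * (mpow ρ 0 + C) * mpow ρ (1 / (2 * p))) * B
        = (B * mpow ρ (1 / (2 * p))) * (mpow ρ 0 + C) * (mpow ρ (1 / (2 * p)) * B) := by
          simp only [Matrix.mul_assoc]
      _ = _ := by rw [b1, b2, PXP h]
  have b4 : B * 1 * Bᴴ = mpow ρ (-(1 / p)) := by
    rw [Matrix.mul_one, hBh, hB, ← mpow_add h.psd]
    congr 1
    field_simp
    ring
  have q1 := qf_conj B (AA p ρ + DD p ρ C) χ
  rw [b3, hBh] at q1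
  have q2 := qf_conj B 1 χ
  rw [b4, hBh, qf_one] at q2
  have q3 : qf (mpow ρ 0 + C) χ = 2 * nsq χ := by
    rw [qf, add_mulVec, Pi_chi h hχ, hχ, dotProduct_add, star_dot, Complex.add_re,
      Complex.ofReal_re]
    ring
  have q4 := qf_nonneg (hr' (1 / p) (by positivity)) χ
  rw [qf_sub, qf_smul, qf_one, q2] at q4
  have q5 := hμ (B *ᵥ χ)
  rw [← q1, q3] at q5
  have hχn : 0 < nsq χ := by
    obtain ⟨i, hi⟩ := Function.ne_iff.1 hχ0
    exact lt_of_lt_of_le (Complex.normSq_pos.2 hi) (normSq_le_nsq χ i)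
  have hR : 0 < r ^ (1 / p) := Real.rpow_pos_of_pos hr _
  have q6 : 2 * nsq χ ≤ μ * (r ^ (-(1 / p)) * nsq χ) :=
    q5.trans (mul_le_mul_of_nonneg_left (by linarith) hμ0)
  have q7 : 2 ≤ μ * r ^ (-(1 / p)) := by
    by_contra hcon
    push Not at hcon
    have := mul_lt_mul_of_pos_right hcon hχn
    nlinarith
  rw [Real.rpow_neg hr.le] at q7
  have q8 := mul_le_mul_of_nonneg_right q7 hR.le
  rwa [mul_assoc, inv_mul_cancel₀ hR.ne', mul_one] at q8

theorem supPow_le {p x : ℝ} (hp : 1 ≤ p) (hx : 0 ≤ x) : supPow (1 / p) x ≤ 1 + x := by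
  have h0 : (1 / p) ≠ 0 := by positivity
  rw [supPow_of_pos_exp h0]
  have h1 : 1 / p ≤ 1 := by
    rw [div_le_one (by linarith)]; exact hp
  rcases le_total x 1 with h | h
  · have := Real.rpow_le_one hx h (by positivity : (0 : ℝ) ≤ 1 / p)
    linarith
  · have := Real.rpow_le_rpow_of_exponent_le h h1
    rw [Real.rpow_one] at this
    linarith

/-- the one-`p` estimate -/
theorem one_p (h : Pr ρ C) {χ : n → ℂ} (hχ0 : χ ≠ 0) (hχ : C *ᵥ χ = χ) {U : Matrix n n ℂ}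
    {d : n → ℝ} (hU : Uᴴ * U = 1) (hU' : U * Uᴴ = 1) (hd : ∀ i, 0 ≤ d i)
    (hρ : ρ = U * diagonal (fun i => (d i : ℂ)) * Uᴴ) :
    ∃ K r₁ : ℝ, 0 < K ∧ 0 < r₁ ∧ ∀ p : ℝ, 2 ≤ p → ∃ (f : n → ℂ) (μ : ℝ), nsq f = 1 ∧ r₁ ≤ μ ∧
      (∀ i, (2 * supPow (1 / p) (d i) - μ) ^ 2 * Complex.normSq ((Uᴴ *ᵥ f) i) ≤
        nsq ((AA p ρ - DD p ρ C) *ᵥ f)) ∧
      2 ^ p * nsq ((AA p ρ - DD p ρ C) *ᵥ f) ≤
        K * (trace (mpow (AA p ρ + DD p ρ C) (p - 1) * (AA p ρ - DD p ρ C))).re := by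
  obtain ⟨r, hr, hr'⟩ := exists_r h.psd
  have hne : Nonempty n := by
    obtain ⟨i, -⟩ := Function.ne_iff.1 hχ0
    exact ⟨i⟩
  set L : ℝ := 2 * (1 + ∑ j, d j) with hL
  have hL0 : 0 < L := by
    have := Finset.sum_nonneg fun j (_ : j ∈ Finset.univ) => hd j
    positivity
  set r₁ : ℝ := min r 1 with hr1
  have hr10 : 0 < r₁ := lt_min hr one_pos
  have hrs : ∀ s : ℝ, 0 ≤ s → s ≤ 1 → r₁ ≤ r ^ s := by
    intro s h0 h1
    rcases le_total r 1 with h | h
    · have := Real.rpow_le_rpow_of_exponent_ge hr h h1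
      rw [Real.rpow_one] at this
      exact (min_le_left _ _).trans this
    · exact (min_le_right _ _).trans (Real.one_le_rpow h h0)
  refine ⟨2 * L / r₁, r₁, by positivity, hr10, fun p hp => ?_⟩
  have hp0 : 0 < p := by linarith
  obtain ⟨f, μ, hμ0, hf, hM, hμ, hN⟩ := exists_top (M_psd h hp0)
  have hμl := mu_low h hχ0 hχ hr hr' hp0 hμ0 hμ
  have hA : AA p ρ = U * diagonal (fun i => (supPow (1 / p) (d i) : ℂ)) * Uᴴ := by
    rw [AA, hρ, mpow_conj_diagonal _ U hU]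
  have hAq : ∀ v, qf (AA p ρ) v ≤ (1 + ∑ j, d j) * nsq v := by
    intro v
    rw [hA, qf_conj, qf_diag, ← nsq_conj hU' v, nsq, Finset.mul_sum]
    refine Finset.sum_le_sum fun i _ => mul_le_mul_of_nonneg_right ?_ (Complex.normSq_nonneg _)
    refine (supPow_le (by linarith) (hd i)).trans ?_
    have := Finset.single_le_sum (f := d) (fun j _ => hd j) (Finset.mem_univ i)
    linarith
  have hNq : ∀ v, qf (AA p ρ - DD p ρ C) v ≤ L * nsq v := by
    intro v
    have e : AA p ρ - DD p ρ C = AA p ρ + AA p ρ - (AA p ρ + DD p ρ C) := by abel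
    have h1 := qf_nonneg (M_psd h hp0) v
    have h2 := hAq v
    rw [e, qf_sub, qf_add, hL]
    linarith
  refine ⟨f, μ, hf, ?_, ?_, ?_⟩
  · have h1 := hrs (1 / p) (by positivity) (by rw [div_le_one hp0]; linarith)
    nlinarith
  · intro i
    have e : (AA p ρ - DD p ρ C) *ᵥ f = (2 : ℂ) • (AA p ρ *ᵥ f) - (μ : ℂ) • f := by
      have e1 : AA p ρ - DD p ρ C = AA p ρ + AA p ρ - (AA p ρ + DD p ρ C) := by abel
      rw [e1, sub_mulVec, hM, add_mulVec, two_smul]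
    have e2 : (Uᴴ *ᵥ ((AA p ρ - DD p ρ C) *ᵥ f)) i =
        ((2 * supPow (1 / p) (d i) - μ : ℝ) : ℂ) * (Uᴴ *ᵥ f) i := by
      rw [e, mulVec_sub, mulVec_smul, mulVec_smul, Pi.sub_apply, Pi.smul_apply, Pi.smul_apply,
        hA, conj_diag_mulVec hU, smul_eq_mul, smul_eq_mul]
      push_cast
      ring
    have e3 := normSq_le_nsq (Uᴴ *ᵥ ((AA p ρ - DD p ρ C) *ᵥ f)) i
    rw [nsq_conj hU', e2, Complex.normSq_mul, Complex.normSq_ofReal] at e3
    rwa [pow_two]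
  · have h1 := hN _ (N_psd h hp0) (p - 1) (by linarith)
    have h2 := nsq_mulVec_le (N_psd h hp0) hNq f
    have h3 : 2 ^ (p - 1) * r₁ ≤ μ ^ (p - 1) := by
      have a1 : (2 * r ^ (1 / p)) ^ (p - 1) ≤ μ ^ (p - 1) :=
        Real.rpow_le_rpow (by positivity) hμl (by linarith)
      rw [Real.mul_rpow (by norm_num) (Real.rpow_nonneg hr.le _), ← Real.rpow_mul hr.le] at a1
      have a2 := hrs (1 / p * (p - 1)) (by
        have : 0 ≤ p - 1 := by linarith
        positivity) (by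
        rw [one_div, inv_mul_le_iff₀ hp0]; linarith)
      exact (mul_le_mul_of_nonneg_left a2 (by positivity)).trans a1
    have h4 := qf_nonneg (N_psd h hp0) f
    have h5 : 2 ^ (p - 1) * r₁ * qf (AA p ρ - DD p ρ C) f ≤
        (trace (mpow (AA p ρ + DD p ρ C) (p - 1) * (AA p ρ - DD p ρ C))).re :=
      (mul_le_mul_of_nonneg_right h3 h4).trans h1
    have h6 : (2 : ℝ) ^ p = 2 * 2 ^ (p - 1) := by
      rw [Real.rpow_sub_one (by norm_num)]; ring
    have h7 : 0 < (2 : ℝ) ^ (p - 1) := by positivity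
    set T := (trace (mpow (AA p ρ + DD p ρ C) (p - 1) * (AA p ρ - DD p ρ C))).re with hT
    rw [h6]
    calc 2 * 2 ^ (p - 1) * nsq ((AA p ρ - DD p ρ C) *ᵥ f)
        ≤ 2 * 2 ^ (p - 1) * (L * qf (AA p ρ - DD p ρ C) f) :=
          mul_le_mul_of_nonneg_left h2 (by positivity)
      _ = 2 * L / r₁ * (2 ^ (p - 1) * r₁ * qf (AA p ρ - DD p ρ C) f) := by
          field_simp
      _ ≤ 2 * L / r₁ * T := mul_le_mul_of_nonneg_left h5 (by positivity)

end onep

section limit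

theorem tendsto_zero_of_mul {x w : ℕ → ℝ} {W : ℝ} (hW : W ≠ 0) (hw : Tendsto w atTop (𝓝 W))
    (h : Tendsto (fun k => x k * w k) atTop (𝓝 0)) : Tendsto x atTop (𝓝 0) := by
  have h1 := h.div hw hW
  rw [zero_div] at h1
  refine h1.congr' ?_
  filter_upwards [hw.eventually_ne hW] with k hk
  exact mul_div_cancel_right₀ _ hk

theorem tendsto_zero_of_sq {x : ℕ → ℝ} (h : Tendsto (fun k => x k ^ 2) atTop (𝓝 0)) :
    Tendsto x atTop (𝓝 0) := by
  have h1 := (Real.continuous_sqrt.tendsto 0).comp h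
  rw [Real.sqrt_zero] at h1
  rw [tendsto_zero_iff_abs_tendsto_zero]
  refine h1.congr fun k => ?_
  rw [Function.comp_apply, Real.sqrt_sq_eq_abs]
  rfl

theorem tendsto_log_mul {x : ℝ} (hx : 0 < x) {p : ℕ → ℝ} (hp : Tendsto p atTop atTop) :
    Tendsto (fun k => p k * (x ^ (1 / p k) - 1)) atTop (𝓝 (Real.log x)) := by
  have h0 : Tendsto (fun k => 1 / p k) atTop (𝓝[>] 0) := by
    rw [tendsto_nhdsWithin_iff]
    refine ⟨?_, ?_⟩
    · exact hp.inv_tendsto_atTop.congr fun k => by simp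
    · filter_upwards [hp.eventually_gt_atTop 0] with k hk
      exact one_div_pos.2 hk
  refine ((tendsto_rpow_sub_one_log hx).comp h0).congr fun k => ?_
  simp

theorem isCompact_sphere : IsCompact {f : n → ℂ | nsq f = 1} := by
  refine Metric.isCompact_of_isClosed_isBounded ?_ ?_
  · refine isClosed_eq ?_ continuous_const
    exact continuous_finsetSum _ fun i _ => Complex.continuous_normSq.comp (continuous_apply i)
  · refine (Metric.isBounded_closedBall (x := (0 : n → ℂ)) (r := 1)).subset fun f hf => ?_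
    rw [mem_closedBall_zero_iff, pi_norm_le_iff_of_nonneg zero_le_one]
    intro i
    have h := normSq_le_nsq f i
    rw [show nsq f = 1 from hf, Complex.normSq_eq_norm_sq] at h
    have h0 := norm_nonneg (f i)
    nlinarith

theorem tendsto_mpow {U : Matrix n n ℂ} {d : n → ℝ} (hU : Uᴴ * U = 1) (hd : ∀ i, 0 ≤ d i)
    {ρ : Matrix n n ℂ} (hρ : ρ = U * diagonal (fun i => (d i : ℂ)) * Uᴴ)
    {p : ℕ → ℝ} (hp : Tendsto p atTop atTop) :
    Tendsto (fun k => mpow ρ (1 / (2 * p k))) atTop (𝓝 (mpow ρ 0)) := by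
  have e : ∀ s, mpow ρ s = U * diagonal (fun i => (supPow s (d i) : ℂ)) * Uᴴ := fun s => by
    rw [hρ, mpow_conj_diagonal _ U hU]
  simp only [e]
  have hs : Tendsto (fun k => 1 / (2 * p k)) atTop (𝓝 0) := by
    exact (hp.const_mul_atTop (by norm_num : (0 : ℝ) < 2)).inv_tendsto_atTop.congr
      fun k => by simp
  have h1 : Tendsto (fun k => (fun i => (supPow (1 / (2 * p k)) (d i) : ℂ))) atTop
      (𝓝 (fun i => (supPow 0 (d i) : ℂ))) := by
    rw [tendsto_pi_nhds]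
    intro i
    refine (Complex.continuous_ofReal.tendsto _).comp ?_
    rcases eq_or_ne (d i) 0 with h0 | h0
    · simp only [h0, supPow_zero_right]; exact tendsto_const_nhds
    · simp only [supPow_of_ne h0]
      exact (Real.continuousAt_const_rpow h0).tendsto.comp hs
  have h2 : Continuous (fun c : n → ℂ => U * diagonal c * Uᴴ) := by
    refine (continuous_const.matrix_mul ?_).matrix_mul continuous_const
    exact continuous_id.matrix_diagonal
  exact (h2.tendsto _).comp h1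

theorem nr {ρ C : Matrix n n ℂ} (h : Pr ρ C) {χ : n → ℂ} (hχ0 : χ ≠ 0) (hχ : C *ᵥ χ = χ)
    (hno : ∀ (f : n → ℂ) (η : ℝ), 0 < η → f ≠ 0 → ρ *ᵥ f = (η : ℂ) • f → C *ᵥ f ≠ f) :
    ∃ ε : ℝ, 0 < ε ∧ ∀ᶠ p : ℝ in atTop,
      2 ^ p * ε / p ^ 2 ≤ (trace (mpow (AA p ρ + DD p ρ C) (p - 1) *
        (AA p ρ - DD p ρ C))).re := by
  classical
  by_contra hcon
  push Not at hcon
  obtain ⟨U, d, hU, hU', hd, hρ⟩ := exists_spectral_nonneg h.psd
  obtain ⟨K, r₁, hK, hr1, hstep⟩ := one_p h hχ0 hχ hU hU' hd hρ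
  have hseq : ∀ k : ℕ, ∃ p : ℝ, (k : ℝ) + 2 ≤ p ∧
      (trace (mpow (AA p ρ + DD p ρ C) (p - 1) * (AA p ρ - DD p ρ C))).re <
        2 ^ p * (1 / ((k : ℝ) + 1)) / p ^ 2 := by
    intro k
    have h1 := hcon (1 / ((k : ℝ) + 1)) (by positivity)
    rw [Filter.frequently_atTop] at h1
    obtain ⟨p, hp, hp'⟩ := h1 ((k : ℝ) + 2)
    exact ⟨p, hp, hp'⟩
  choose p hp hpt using hseq
  have hp2 : ∀ k, 2 ≤ p k := fun k => by
    have := hp k
    have : (0 : ℝ) ≤ k := Nat.cast_nonneg k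
    linarith
  choose f μ hf hμ hfi hfN using fun k => hstep (p k) (hp2 k)
  have hN : ∀ k, p k ^ 2 * nsq ((AA (p k) ρ - DD (p k) ρ C) *ᵥ f k) ≤ K * (1 / ((k : ℝ) + 1)) := by
    intro k
    have a1 := (hfN k).trans (mul_le_mul_of_nonneg_left (hpt k).le hK.le)
    have hpp : 0 < p k := by linarith [hp2 k]
    have h2p : 0 < (2 : ℝ) ^ p k := by positivity
    have a2 : K * (2 ^ p k * (1 / ((k : ℝ) + 1)) / p k ^ 2) =
        2 ^ p k * (K * (1 / ((k : ℝ) + 1)) / p k ^ 2) := by ring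
    rw [a2] at a1
    have a3 := le_of_mul_le_mul_left a1 h2p
    rw [le_div_iff₀ (by positivity)] at a3
    linarith
  obtain ⟨g, hg, φ, hφ, hlim⟩ := isCompact_sphere.tendsto_subseq (x := f) hf
  have hφt := hφ.tendsto_atTop
  have hpt2 : Tendsto (fun k => p (φ k)) atTop atTop := by
    refine tendsto_atTop_mono (f := fun k => ((φ k : ℕ) : ℝ)) (fun k => ?_)
      (tendsto_natCast_atTop_atTop.comp hφt)
    linarith [hp (φ k)]
  have hK0 : Tendsto (fun k => K * (1 / ((φ k : ℝ) + 1))) atTop (𝓝 0) := by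
    have := (tendsto_one_div_add_atTop_nhds_zero_nat (𝕜 := ℝ)).comp hφt
    simpa using this.const_mul K
  -- coordinates
  set w : n → ℂ := Uᴴ *ᵥ g with hw
  have hwl : ∀ i, Tendsto (fun k => ‖(Uᴴ *ᵥ f (φ k)) i‖) atTop (𝓝 ‖w i‖) := by
    intro i
    have hc : Continuous (fun v : n → ℂ => ‖(Uᴴ *ᵥ v) i‖) :=
      ((continuous_apply i).comp (continuous_const.matrix_mulVec continuous_id)).norm
    exact (hc.tendsto g).comp hlim
  have hx : ∀ i, w i ≠ 0 →
      Tendsto (fun k => p (φ k) * (2 * supPow (1 / p (φ k)) (d i) - μ (φ k))) atTop (𝓝 0) := by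
    intro i hi
    refine tendsto_zero_of_mul (norm_ne_zero_iff.2 hi) (hwl i) ?_
    refine tendsto_zero_of_sq ?_
    refine squeeze_zero (fun k => sq_nonneg _) (fun k => ?_) hK0
    have a1 := hfi (φ k) i
    have a2 := hN (φ k)
    have a3 : (p (φ k) * (2 * supPow (1 / p (φ k)) (d i) - μ (φ k)) *
        ‖(Uᴴ *ᵥ f (φ k)) i‖) ^ 2 = p (φ k) ^ 2 *
          ((2 * supPow (1 / p (φ k)) (d i) - μ (φ k)) ^ 2 *
            Complex.normSq ((Uᴴ *ᵥ f (φ k)) i)) := by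
      rw [Complex.normSq_eq_norm_sq]; ring
    rw [a3]
    exact (mul_le_mul_of_nonneg_left a1 (sq_nonneg _)).trans a2
  have hdpos : ∀ i, w i ≠ 0 → 0 < d i := by
    intro i hi
    refine lt_of_le_of_ne (hd i) fun h0 => ?_
    have h1 := hx i hi
    rw [← h0] at h1
    simp only [supPow_zero_right, mul_zero, zero_sub] at h1
    obtain ⟨k, hk⟩ := (h1.eventually (lt_mem_nhds (show (-r₁ : ℝ) < 0 by linarith))).exists
    have h2 := hμ (φ k)
    have h3 := hp2 (φ k)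
    nlinarith
  have hdeq : ∀ i j, w i ≠ 0 → w j ≠ 0 → d i = d j := by
    intro i j hi hj
    have h1 := (hx i hi).sub (hx j hj)
    rw [sub_zero] at h1
    have h2 := ((tendsto_log_mul (hdpos i hi) hpt2).sub
      (tendsto_log_mul (hdpos j hj) hpt2)).const_mul 2
    have h3 : Tendsto (fun k => 2 * (p (φ k) * ((d i) ^ (1 / p (φ k)) - 1) -
        p (φ k) * ((d j) ^ (1 / p (φ k)) - 1))) atTop (𝓝 0) := by
      refine h1.congr fun k => ?_
      rw [supPow_of_ne (hdpos i hi).ne', supPow_of_ne (hdpos j hj).ne']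
      ring
    have h4 := tendsto_nhds_unique h2 h3
    have h5 : Real.log (d i) = Real.log (d j) := by linarith
    exact Real.log_injOn_pos (hdpos i hi) (hdpos j hj) h5
  have hg0 : ∃ i, w i ≠ 0 := by
    by_contra hall
    push Not at hall
    have h1 : nsq w = 1 := by rw [hw, nsq_conj hU']; exact hg
    have h2 : nsq w = 0 := by
      rw [nsq]; exact Finset.sum_eq_zero fun i _ => by rw [hall i]; simp
    linarith
  obtain ⟨i₀, hi₀⟩ := hg0
  have hUw : U *ᵥ w = g := by rw [hw, mulVec_mulVec, hU', one_mulVec]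
  have hρg : ρ *ᵥ g = (d i₀ : ℂ) • g := by
    rw [hρ, ← mulVec_mulVec, ← mulVec_mulVec, ← hw]
    have : diagonal (fun i => (d i : ℂ)) *ᵥ w = (d i₀ : ℂ) • w := by
      funext i
      rw [mulVec_diagonal, Pi.smul_apply, smul_eq_mul]
      rcases eq_or_ne (w i) 0 with h0 | h0
      · rw [h0, mul_zero, mul_zero]
      · rw [hdeq i i₀ h0 hi₀]
    rw [this, mulVec_smul, hUw]
  have hPg : mpow ρ 0 *ᵥ g = g := by
    rw [hρ, mpow_conj_diagonal _ U hU, ← mulVec_mulVec, ← mulVec_mulVec, ← hw]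
    have : diagonal (fun i => (supPow 0 (d i) : ℂ)) *ᵥ w = w := by
      funext i
      rw [mulVec_diagonal]
      rcases eq_or_ne (w i) 0 with h0 | h0
      · rw [h0, mul_zero]
      · rw [supPow_of_ne (hdpos i h0).ne', Real.rpow_zero, Complex.ofReal_one, one_mul]
    rw [this, hUw]
  have hgne : g ≠ 0 := by
    intro h0
    apply hi₀
    rw [hw, h0, mulVec_zero]
    rfl
  refine hno g (d i₀) (hdpos i₀ hi₀) hgne hρg ?_
  -- the limit of `N f`
  have hNl : Tendsto (fun k => (AA (p (φ k)) ρ - DD (p (φ k)) ρ C) *ᵥ f (φ k)) atTop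
      (𝓝 ((mpow ρ 0 * (mpow ρ 0 - C) * mpow ρ 0) *ᵥ g)) := by
    have h1 := tendsto_mpow hU hd hρ hpt2
    have h2 : Continuous (fun q : Matrix n n ℂ × (n → ℂ) =>
        (q.1 * (mpow ρ 0 - C) * q.1) *ᵥ q.2) :=
      ((continuous_fst.matrix_mul continuous_const).matrix_mul continuous_fst).matrix_mulVec
        continuous_snd
    refine ((h2.tendsto (mpow ρ 0, g)).comp (h1.prodMk_nhds hlim)).congr fun k => ?_
    have hpk : 0 < p (φ k) := by linarith [hp2 (φ k)]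
    rw [Function.comp_apply, N_eq h hpk]
    rfl
  have hN0 : Tendsto (fun k => nsq ((AA (p (φ k)) ρ - DD (p (φ k)) ρ C) *ᵥ f (φ k))) atTop
      (𝓝 0) := by
    refine squeeze_zero (fun k => nsq_nonneg _) (fun k => ?_) hK0
    have a2 := hN (φ k)
    have a3 := nsq_nonneg ((AA (p (φ k)) ρ - DD (p (φ k)) ρ C) *ᵥ f (φ k))
    have a4 : 1 ≤ p (φ k) ^ 2 := by nlinarith [hp2 (φ k)]
    nlinarith
  have hc : Continuous (nsq : (n → ℂ) → ℝ) :=
    continuous_finsetSum _ fun i _ => Complex.continuous_normSq.comp (continuous_apply i)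
  have h3 := tendsto_nhds_unique ((hc.tendsto _).comp hNl) hN0
  have h4 : (mpow ρ 0 * (mpow ρ 0 - C) * mpow ρ 0) *ᵥ g = 0 := by
    funext i
    have := normSq_le_nsq ((mpow ρ 0 * (mpow ρ 0 - C) * mpow ρ 0) *ᵥ g) i
    rw [h3] at this
    exact Complex.normSq_eq_zero.1 (le_antisymm this (Complex.normSq_nonneg _))
  rw [Matrix.mul_sub, Matrix.sub_mul, Pi_Pi h, Pi_Pi h, h.left, h.right, sub_mulVec, hPg,
    sub_eq_zero] at h4
  exact h4.symm

theorem nrTarget : NRTarget := fun _ _ _ _ _ h _ hχ0 hχ hno => nr h hχ0 hχ hno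

end limit

end Pool.Agent.Lib_helper80.LA
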